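import Pool.Agent.H.MP_4c145a_lc.C

set_option autoImplicit false
set_option linter.unusedSimpArgs false
set_option linter.unusedVariables false

namespace Pool.Agent.Results.MP_4c145a_lc.Strict

open Relation Pool.Agent.H.MP_4c145a_lc Pool.Agent.Lib.helper21.PR

structure LF (σ : Type) where
  V : Set σ
  T : Set σ
  P : Set (σ × List σ × Set σ)
  w : List σ
  fV : V.Finite
  fP : P.Finite
  hT : T ⊆ V
  hw : w ≠ [] ∧ ∀ a ∈ w, a ∈ V
  hP : ∀ r ∈ P, r.1 ∈ V ∧ (∀ a ∈ r.2.1, a ∈ V) ∧ r.2.2 ⊆ V \ T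

/-- `Par P l u v`: parallel rewriting of `u` into `v` when `l` stands to the left of `u` -/
inductive Par {σ : Type} (P : Set (σ × List σ × Set σ)) : List σ → List σ → List σ → Prop
  | nil (l) : Par P l [] []
  | cons {l X y W u v} : (X, y, W) ∈ P → (∀ a ∈ l, a ∉ W) → Par P (l ++ [X]) u v →
      Par P l (X :: u) (y ++ v)

def LF.L {σ : Type} (G : LF σ) : Set (List σ) :=
  {x | (∀ a ∈ x, a ∈ G.T) ∧ ReflTransGen (fun u v => u ≠ [] ∧ Par G.P [] u v) G.w x}

def LF.Propagating {σ : Type} (G : LF σ) : Prop := ∀ r ∈ G.P, r.2.1 ≠ []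

theorem Par.append {σ : Type} {P : Set (σ × List σ × Set σ)} {l u v u' v' : List σ}
    (h : Par P l u v) (h' : Par P (l ++ u) u' v') : Par P l (u ++ u') (v ++ v') := by
  induction h with
  | nil => simpa using h'
  | cons a b _ ih => rw [List.append_assoc]; exact .cons a b (ih (by simpa using h'))

open Sy

attribute [-simp] Sum.exists Sum.forall

inductive Ru (S : Set (List Pr)) (C : Set R) : Sy × List Sy × Set Sy → Prop
  | sil {k k'} : k ∈ S → Sil k k' → Ru S C (ctl k false, [ctl k' false], ∅)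
  | inc {c k} : .inc c :: k ∈ S → Ru S C (ctl (.inc c :: k) false, [ctl k false, tok c], ∅)
  | dec {c k} : .dec c :: k ∈ S → Ru S C (ctl (.dec c :: k) false, [ctl k true], ∅)
  | cl {k} : k ∈ S → Ru S C (ctl k true, [ctl k false], ∅)
  | zero {c k} : .zero c :: k ∈ S → Ru S C (ctl (.zero c :: k) false, [ctl k false], ∅)
  | fin : Ru S C (ctl [] false, [], ∅)
  | id {c} : c ∈ C → Ru S C (tok c, [tok c],
      {x | ∃ k ∈ S, x = ctl k false ∧ (k = [] ∨ ∃ k', k = .zero c :: k')})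
  | mk {c} : c ∈ C → Ru S C (tok c, [mrk],
      {x | ∃ k ∈ S, ∃ b, x = ctl k b ∧ ¬ (b = false ∧ ∃ k', k = .dec c :: k')})
  | er : Ru S C (mrk, [], {mrk})
  | out {c} : c ∈ C → Ru S C (tok c, [trm c], {x | ∃ k ∈ S, ∃ b, x = ctl k b ∧ ¬ (b = false ∧ k = [])})

section
variable {S : Set (List Pr)} {C : Set R} {k : List Pr}

theorem s1 (hk : k ∈ S) {l : List R} : ∀ {x v}, ctl k false ∈ x → Par (Ru S C) x (l.map tok) v →
    (k = [] → v = l.map trm) ∧ (∀ c k', k = .dec c :: k' → ∃ m : List (Option R),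
      v = m.map (·.elim mrk tok) ∧ m.map (·.getD c) = l) ∧ (k ≠ [] → (∀ c k', k ≠ .dec c :: k') →
      v = l.map tok ∧ ∀ c k', k = .zero c :: k' → c ∉ l) := by
  induction l with
  | nil => rintro x _ _ ⟨⟩; simp
  | cons a l ih =>
    rintro x _ h (_ | ⟨q, q', q''⟩)
    obtain ⟨h1, h2, h3⟩ := ih (by simp [h]) q''
    have := q' _ h
    cases q with
    | id =>
      refine ⟨fun e => by simp [e ▸ hk, e] at this, fun c k' e => ?_, fun e e' => ?_⟩
      · obtain ⟨m, rfl, rfl⟩ := h2 c k' e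
        exact ⟨some a :: m, rfl, rfl⟩
      · refine ⟨by simp [(h3 e e').1], ?_⟩
        rintro c k' rfl
        simp [hk] at this
        simp [this, (h3 e e').2 c k' rfl]
    | mk =>
      obtain ⟨k', rfl⟩ : ∃ k', k = .dec a :: k' := by simpa [hk] using this
      refine ⟨nofun, ?_, fun _ e => (e _ _ rfl).elim⟩
      rintro _ _ ⟨⟩
      obtain ⟨m, rfl, rfl⟩ := h2 _ _ rfl
      exact ⟨none :: m, rfl, rfl⟩
    | out =>
      obtain rfl : k = [] := by simpa [hk] using this
      simp [h1]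

theorem s2 (hk : k ∈ S) (c : R) {m : List (Option R)} : ∀ {x v}, ctl k true ∈ x →
    Par (Ru S C) x (m.map (·.elim mrk tok)) v → ∃ l : List R, v = l.map tok ∧ (m.map (·.getD c) = l ∨
      mrk ∉ x ∧ (m.map (·.getD c) : Multiset R) = l + {c}) := by
  induction m with
  | nil => rintro x _ _ ⟨⟩; simp
  | cons a m ih =>
    rintro x _ h (_ | ⟨q, q', q''⟩)
    obtain ⟨l, rfl, h1⟩ := ih (by simp [h]) q''
    have := q' _ h
    cases a with
    | none =>
      cases q
      exact ⟨l, rfl, .inr ⟨fun r => q' _ r rfl, by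
        rw [← h1.resolve_right (by simp), add_comm]; rfl⟩⟩
    | some a =>
      cases q with
      | id => exact ⟨a :: l, rfl, h1.imp (congrArg _) fun r => ⟨fun e => r.1 (by simp [e]), by
          rw [List.map_cons, ← Multiset.cons_coe, r.2, ← Multiset.cons_coe, Multiset.cons_add]; rfl⟩⟩
      | mk => simp [hk] at this
      | out => simp [hk] at this

theorem c1 {b : Bool} {l : List R} : ∀ {x}, (∀ k' b', ctl k' b' ∈ x → k' = k ∧ b' = b) →
    (∀ c ∈ l, c ∈ C ∧ (b = false → k ≠ [] ∧ ∀ k', k ≠ .zero c :: k')) →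
    Par (Ru S C) x (l.map tok) (l.map tok) := by
  induction l with
  | nil => exact fun _ _ => .nil _
  | cons a l ih =>
    refine fun h h' => .cons (.id (h' a (by simp)).1) ?_ (ih (by simpa using h)
      fun c e => h' c (by simp [e]))
    rintro _ e ⟨k', -, rfl, q⟩
    obtain ⟨rfl, rfl⟩ := h _ _ e
    exact q.elim ((h' a (by simp)).2 rfl).1 fun ⟨k', q⟩ => ((h' a (by simp)).2 rfl).2 k' q

theorem c2 {l : List R} : ∀ {x}, (∀ k' b', ctl k' b' ∈ x → k' = [] ∧ b' = false) →
    (∀ c ∈ l, c ∈ C) → Par (Ru S C) x (l.map tok) (l.map trm) := by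
  induction l with
  | nil => exact fun _ _ => .nil _
  | cons a l ih =>
    refine fun h h' => .cons (Ru.out (h' a (by simp))) ?_ (ih (by simpa using h)
      fun c e => h' c (by simp [e]))
    rintro _ e ⟨k', -, b, rfl, q⟩
    exact q (h _ _ e).symm
end

theorem sim (p : Pr) : ∃ G : LF Sy, ∀ v : Multiset R,
    (∃ w ∈ G.L, (w : Multiset Sy) = v.map trm) ↔ Sem True p 0 v := by
  obtain ⟨S, C, f1, f2, h0, h1, h2, h3⟩ := H.MP_4c145a_lc.ctl p
  let V : Set Sy := Set.image2 ctl S Set.univ ∪ (tok '' C ∪ insert mrk (trm '' C))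
  have fV : V.Finite := (f1.image2 _ Set.finite_univ).union ((f2.image _).union ((f2.image _).insert _))
  have hP : ∀ r, Ru S C r → r.2.1.length ≤ 2 ∧ r.1 ∈ V ∧ (∀ a ∈ r.2.1, a ∈ V) ∧
      r.2.2 ⊆ V \ trm '' C := by
    rintro _ (⟨a, b⟩ | a | a | a | a | _ | a | a | _ | a)
    · simp [V, a, h1 _ a _ b]
    · simp [V, a, h2 _ _ a, h3 _ _ a]
    · simp [V, a, h2 _ _ a]
    · simp [V, a]
    · simp [V, a, h2 _ _ a]
    · simp [V, h2 _ _ h0]
    · exact ⟨by simp, by simp [V, a], by simp [V, a], by rintro _ ⟨k, e, rfl, -⟩; simp [V, e]⟩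
    · exact ⟨by simp, by simp [V, a], by simp [V, a], by rintro _ ⟨k, e, b, rfl, -⟩; simp [V, e]⟩
    · simp [V]
    · exact ⟨by simp, by simp [V, a], by simp [V, a], by rintro _ ⟨k, e, b, rfl, -⟩; simp [V, e]⟩
  have := fV.to_subtype
  refine ⟨⟨V, trm '' C, Ru S C, [ctl [p] false], fV, (fV.prod (((List.finite_length_le V 2).image
    (List.map Subtype.val)).prod fV.finite_subsets)).subset fun r h => ⟨(hP r h).2.1,
      ⟨r.2.1.pmap Subtype.mk (hP r h).2.2.1, by simpa using (hP r h).1, by simp [List.map_pmap]⟩,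
      (hP r h).2.2.2.trans Set.diff_subset⟩, fun _ h => .inr (.inr (.inr h)), by simp [V, h0],
    fun r h => (hP r h).2⟩, fun v => ?_⟩
  rw [← run]
  refine ⟨fun ⟨w, ⟨q1, q2⟩, q3⟩ => ?_, fun q => ?_⟩
  · have : (∃ k ∈ S, ∃ l : List R, w = ctl k false :: l.map tok ∧ ReflTransGen M ([p], 0) (k, l)) ∨
        (∃ k ∈ S, ∃ c, ∃ m : List (Option R), w = ctl k true :: m.map (·.elim mrk tok) ∧
          ReflTransGen M ([p], 0) (.dec c :: k, (m.map (·.getD c) : List R))) ∨
        ∃ l : List R, w = l.map trm ∧ ReflTransGen M ([p], 0) ([], l) := by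
      clear q1 q3
      induction q2 with
      | refl => exact .inl ⟨_, h0, [], rfl, .refl⟩
      | tail _ q ih =>
        obtain ⟨k, hk, l, rfl, e⟩ | ⟨k, hk, c, m, rfl, e⟩ | ⟨_ | ⟨a, l⟩, rfl, e⟩ := ih
        · obtain ⟨-, _ | ⟨q, -, q'⟩⟩ := q
          obtain ⟨k1, k2, k3⟩ := s1 hk (by simp) q'
          cases q with
          | sil _ a =>
            exact .inl ⟨_, h1 _ hk _ a, l, by rw [(k3 (by rintro rfl; cases a)
              (by rintro _ _ rfl; cases a)).1]; rfl, e.tail (.sil _ a)⟩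
          | @inc c =>
            exact .inl ⟨_, h2 _ _ hk, c :: l, by rw [(k3 nofun nofun).1]; rfl, e.tail
              (by rw [← Multiset.cons_coe, ← Multiset.singleton_add, add_comm]; exact .inc ..)⟩
          | dec =>
            obtain ⟨m, rfl, rfl⟩ := k2 _ _ rfl
            exact .inr (.inl ⟨_, h2 _ _ hk, _, m, rfl, e⟩)
          | zero =>
            exact .inl ⟨_, h2 _ _ hk, l, by rw [(k3 nofun nofun).1]; rfl,
              e.tail (.zero _ _ _ ((k3 nofun nofun).2 _ _ rfl))⟩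
          | fin => exact .inr (.inr ⟨l, k1 rfl, e⟩)
        · obtain ⟨-, _ | ⟨⟨⟩, -, q'⟩⟩ := q
          obtain ⟨l, rfl, rfl | ⟨-, r⟩⟩ := s2 hk c (by simp) q'
          exacts [.inl ⟨k, hk, _, rfl, e.tail (.skip ..)⟩, .inl ⟨k, hk, l, rfl, (r ▸ e).tail (.dec ..)⟩]
        · exact (q.1 rfl).elim
        · obtain ⟨-, _ | ⟨⟨⟩⟩⟩ := q
    obtain ⟨k, -, l, rfl, -⟩ | ⟨k, -, c, m, rfl, -⟩ | ⟨l, rfl, e⟩ := this
    · simpa using q1 _ List.mem_cons_self
    · simpa using q1 _ List.mem_cons_self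
    · rwa [Multiset.map_injective (fun _ _ => trm.inj) ((Multiset.map_coe ..).trans q3)] at e
  · have : ∀ x, ReflTransGen M ([p], 0) x → x.1 ∈ S ∧ ∃ l : List R, ↑l = x.2 ∧ (∀ c ∈ l, c ∈ C) ∧
        ReflTransGen (fun u v => u ≠ [] ∧ Par (Ru S C) [] u v) [ctl [p] false]
          (ctl x.1 false :: l.map tok) := fun x q => by
      induction q with
      | refl => exact ⟨h0, [], rfl, by simp, .refl⟩
      | tail _ q ih =>
        obtain ⟨hk, l, e1, e2, e3⟩ := ih
        have st : ∀ {k b y}, Ru S C (ctl k b, y, ∅) → (∀ c ∈ l, b = false → k ≠ [] ∧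
            ∀ k', k ≠ .zero c :: k') → ctl k b :: l.map tok ≠ [] ∧
            Par (Ru S C) [] (ctl k b :: l.map tok) (y ++ l.map tok) := fun a b =>
          ⟨nofun, .cons a (by simp) (c1 (by simp) fun c h => ⟨e2 c h, b c h⟩)⟩
        cases q with
        | sil _ a =>
          exact ⟨h1 _ hk _ a, l, e1, e2, e3.tail (st (.sil hk a) (by cases a <;> simp))⟩
        | inc c =>
          exact ⟨h2 _ _ hk, c :: l, by rw [← Multiset.cons_coe, ← Multiset.singleton_add, add_comm, e1],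
            by simpa [h3 _ _ hk] using e2, e3.tail (st (.inc hk) (by simp))⟩
        | skip c =>
          exact ⟨h2 _ _ hk, l, e1, e2, (e3.tail (st (.dec hk) (by simp))).tail
            (st (.cl (h2 _ _ hk)) (by simp))⟩
        | zero c _ _ a =>
          exact ⟨h2 _ _ hk, l, e1, e2, e3.tail (st (.zero hk) fun c' h _ => ⟨nofun, by
            rintro _ ⟨⟩; exact a (Multiset.mem_of_le e1.le (Multiset.mem_coe.2 h))⟩)⟩
        | dec c k u =>
          obtain ⟨l1, l2, rfl⟩ := List.append_of_mem (show c ∈ l by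
            rw [← Multiset.mem_coe, e1]; simp)
          refine ⟨h2 _ _ hk, l1 ++ l2, add_right_cancel (b := {c}) (Eq.trans ?_ e1), fun a h => e2 a (by
            simpa using (List.mem_append.1 h).imp_right .inr), (e3.tail (c := ctl k true ::
              (l1.map tok ++ mrk :: l2.map tok)) ⟨nofun, ?_⟩).tail ⟨nofun, ?_⟩⟩
          · simp only [← Multiset.coe_add, ← Multiset.cons_coe, ← Multiset.singleton_add]; abel
          · rw [List.map_append]
            refine .cons (.dec hk) (by simp) (Par.append (c1 (k := .dec c :: k) (b := false) ?_ ?_)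
              (.cons (.mk (e2 c (by simp))) ?_ (c1 (k := .dec c :: k) (b := false) ?_ ?_)))
            exacts [by simp, fun a h => by simp [e2 a (by simp [h])], by simp; rintro _ - rfl; simp, by simp,
              fun a h => by simp [e2 a (by simp [h])]]
          · rw [List.map_append]
            refine .cons (.cl (h2 _ _ hk)) (by simp) (Par.append (c1 (k := k) (b := true) ?_ ?_)
              (.cons .er ?_ (c1 (k := k) (b := true) ?_ ?_)))
            exacts [by simp, fun a h => by simp [e2 a (by simp [h])], by simp, by simp,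
              fun a h => by simp [e2 a (by simp [h])]]
    obtain ⟨-, l, rfl, e2, e3⟩ := this _ q
    exact ⟨l.map trm, ⟨by simpa using e2, e3.tail ⟨nofun, .cons .fin (by simp) (c2 (by simp) e2)⟩⟩, rfl⟩

attribute [local irreducible] Primrec Computable

theorem result : ∃ (σ : Type) (_ : Infinite σ) (G : LF σ), ∀ G' : LF σ, G'.Propagating →
    G'.L ≠ G.L \ {[]} := by
  classical
  obtain ⟨_⟩ := nonempty_denumerable Sy
  let g : List (Sy × List Sy × List Sy) → List Sy × List (List Sy) → Sy → List Sy × List (List Sy) :=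
    fun P s X => (s.1 ++ [X], s.2.flatMap fun v => (P.filter fun r => r.1 = X ∧
      ∀ a ∈ s.1, ¬ a ∈ r.2.2).map fun r => v ++ r.2.1)
  obtain ⟨f, f1, f2⟩ := diag (C := List Sy × List (Sy × List Sy × List Sy))
    (fun c u => if u = [] then [] else (u.foldl (g c.2) ([], [[]])).2) (·.1)
    (fun c => c.2.flatMap fun r => r.2.1) (by simp only [g]; fun_prop) (by fun_prop) (by fun_prop)
    (trm (.inl 0)) (trm (.inr 2)) (trm B)
  obtain ⟨p, hp⟩ := slice f1
  obtain ⟨G, hG⟩ := sim p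
  refine ⟨Sy, inferInstance, G, fun G' pr e => ?_⟩
  let P := G'.fP.toFinset.toList.attach.map fun r => (r.1.1, r.1.2.1, ((G'.fV.subset
    ((G'.hP r.1 (by simpa using r.2)).2.2.trans Set.diff_subset)).toFinset.toList))
  have k : ∀ u l acc v, v ∈ (u.foldl (g P) (l, acc)).2 ↔
      ∃ v0 ∈ acc, ∃ v', v = v0 ++ v' ∧ Par G'.P l u v' := fun u => by
    induction u with
    | nil =>
      exact fun l acc v => ⟨fun h => ⟨v, h, [], by simp, .nil _⟩, by rintro ⟨_, h, _, rfl, ⟨⟩⟩; simpa⟩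
    | cons X u ih =>
      intro l acc v
      simp only [List.foldl_cons, g, ih, List.mem_flatMap, List.mem_map, List.mem_filter, P,
        decide_eq_true_eq]
      constructor
      · rintro ⟨_, ⟨v0, h, _, ⟨⟨⟨⟨_, y, W⟩, r⟩, -, rfl⟩, rfl, q⟩, rfl⟩, v', rfl, q'⟩
        exact ⟨v0, h, y ++ v', by simp, .cons (by simpa using r) (by simpa using q) q'⟩
      · rintro ⟨v0, h, _, rfl, _ | ⟨r, q, q'⟩⟩
        exact ⟨_, ⟨v0, h, _, ⟨⟨⟨_, by simpa using r⟩, by simp, rfl⟩, rfl, by simpa using q⟩, rfl⟩, _,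
          by simp, q'⟩
  have k' : ∀ u v, (v ∈ if u = [] then [] else (u.foldl (g P) ([], [[]])).2) ↔
      u ≠ [] ∧ Par G'.P [] u v := fun u v => by split_ifs with c <;> simp [c, k]
  let H := trm (.inl 0) ∈ G'.T ∧ trm (.inr 2) ∈ G'.T ∧ trm B ∈ G'.T
  obtain ⟨n, n0, hn⟩ := f2 (if H then G'.w else [], P) fun u v h => by
    have := ((k' u v).1 h).2
    generalize ([] : List Sy) = l at this
    clear h
    induction this with
    | nil => simp
    | cons r _ _ ih =>
      refine ⟨by have := List.length_pos_iff.2 (pr _ r); simp at this ⊢; omega, fun a h =>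
        (List.mem_append.1 h).elim (fun h => ?_) (ih.2 a)⟩
      exact List.mem_flatMap.2 ⟨_, List.mem_map.2 ⟨⟨_, by simpa using r⟩, by simp, rfl⟩, h⟩
  simp only [k', ms (a := .inl 0) (b := .inr 2) (c := B) nofun nofun nofun, ← hp, ← hG] at hn
  have m : ∀ {w : List Sy}, (w : Multiset Sy) = Multiset.map trm (n • {.inl 0} + n • {.inr 2} + n • {B}) →
      ∀ a, a ∈ w ↔ (a = trm (.inl 0) ∨ a = trm (.inr 2)) ∨ a = trm B := fun q a => by
    simp [← Multiset.mem_coe, q, Multiset.map_nsmul, Multiset.mem_nsmul, n0]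
  refine iff_not_self (hn.trans (not_congr ⟨fun ⟨w, q1, q2⟩ => ?_, fun ⟨w, q1, q2⟩ => ?_⟩))
  · split_ifs at q1 with c
    · exact ⟨w, (e.le ⟨fun a h => by rcases (m q2 a).1 h with (rfl | rfl) | rfl; exacts
        [c.1, c.2.1, c.2.2], q1⟩).1, q2⟩
    · obtain rfl | ⟨_, q, -⟩ := q1.cases_head
      exacts [by simpa using m q2 (trm B), (q.1 rfl).elim]
  · have := e.ge ⟨q1, by rintro rfl; simpa using m q2 (trm B)⟩
    exact ⟨w, by rw [if_pos ⟨this.1 _ ((m q2 _).2 (by simp)), this.1 _ ((m q2 _).2 (by simp)),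
      this.1 _ ((m q2 _).2 (by simp))⟩]; exact this.2, q2⟩

end Pool.Agent.Results.MP_4c145a_lc.Strict
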